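import Pool.Agent.W188.QS.Stm2
import Pool.Agent.H382R2.Rect

/-!
QS2-RES: the residue theorem for the sampling measure.
-/

set_option autoImplicit false

open Complex MeasureTheory Set Filter Topology

namespace Pool.Agent.W290.QS

open Pool.Agent.W188.QS

theorem cp_re (t : ℝ) : (cp t).re = 1 / 2 := by
  unfold cp; simp

theorem cp_im (t : ℝ) : (cp t).im = t := by
  unfold cp; simp

theorem cp_inj : Function.Injective cp := by
  intro s t h
  have := congrArg Complex.im h
  rwa [cp_im, cp_im] at this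

theorem qs_res (h1 : Pool.Agent.W188.QS.StBasic) (h2 : Pool.Agent.W188.QS.StLine) :
    Pool.Agent.W188.QS.StRes := by
  classical
  intro c k N T Δ a b hc hN hΔ ha hab hwa hwb
  obtain ⟨l1, l2, l3, l4, l5, l6, l7, l8, l9, l10⟩ := h2
  have hfin : (PP c N ∩ Ioo a b).Finite := (l10 c N hc hN b).subset (fun t ht => ⟨ht.1, ht.2.2.le⟩)
  set S : Finset ℝ := hfin.toFinset with hS
  have hmemS : ∀ t, t ∈ S ↔ (100 < t ∧ ww c N (cp t) = 1) ∧ (a < t ∧ t < b) := by
    intro t
    rw [hS, Set.Finite.mem_toFinset]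
    rfl
  set Z : Finset ℂ := S.image cp with hZ
  have hUo : IsOpen {s : ℂ | 1 < s.im} := isOpen_lt continuous_const Complex.continuous_im
  have hfd : DifferentiableOn ℂ (fun s => 1 - ww c N s) {s : ℂ | 1 < s.im} := by
    intro s hs
    obtain ⟨b1, b2, b3, _⟩ := h1 s (le_of_lt hs)
    apply DifferentiableAt.differentiableWithinAt
    unfold ww
    exact (differentiableAt_const _).sub ((differentiableAt_const _).mul ((b1.inv b2).pow N))
  have hHd : DifferentiableOn ℂ (fun s => FF k s * GG T Δ s) {s : ℂ | 1 < s.im} := by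
    intro s hs
    obtain ⟨b1, b2, b3, _⟩ := h1 s (le_of_lt hs)
    apply DifferentiableAt.differentiableWithinAt
    unfold FF GG
    apply DifferentiableAt.mul
    · exact (b3.pow _).mul (b1.pow _)
    · exact (((differentiableAt_id.sub (differentiableAt_const _)).div_const _).pow 2).cexp
  have hR : Set.Icc (-3 : ℝ) 4 ×ℂ Set.Icc a b ⊆ {s : ℂ | 1 < s.im} := by
    intro s hs
    rw [mem_reProdIm] at hs
    show 1 < s.im
    have := hs.2.1
    linarith
  have h0 : ∀ s ∈ Set.Icc (-3 : ℝ) 4 ×ℂ Set.Icc a b, 1 - ww c N s = 0 ↔ s ∈ Z := by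
    intro s hs
    rw [mem_reProdIm] at hs
    obtain ⟨⟨hs1, hs2⟩, hs3, hs4⟩ := hs
    obtain ⟨b1, b2, b3, b4, b5, b6, b7, b8⟩ := h1 s (by linarith)
    constructor
    · intro hw
      have hw1 : ww c N s = 1 := by linear_combination -hw
      have hn : ‖XX s‖ = 1 := by
        have e1 : ‖ww c N s‖ = 1 := by rw [hw1, norm_one]
        unfold ww at e1
        rw [norm_mul, hc, one_mul, norm_pow, norm_inv] at e1
        have e2 : ‖XX s‖⁻¹ = 1 := (pow_eq_one_iff_of_nonneg (by positivity) (by omega)).1 e1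
        rw [inv_eq_one] at e2
        exact e2
      rcases lt_trichotomy s.re (1 / 2) with h | h | h
      · exfalso
        have r1 : (rf s).re = 1 - s.re := by unfold rf; simp
        have r2 : (rf s).im = s.im := by unfold rf; simp
        have := l6 (rf s) (by rw [r1]; linarith) (by rw [r1]; linarith) (by rw [r2]; linarith)
        rw [b4, norm_inv, RCLike.norm_conj, hn] at this
        norm_num at this
      · have hcp : cp s.im = s := by
          apply Complex.ext
          · rw [cp_re, h]
          · rw [cp_im]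
        rw [hZ, Finset.mem_image]
        refine ⟨s.im, ?_, hcp⟩
        rw [hmemS]
        have n1 : s.im ≠ a := by
          intro e
          rw [← e, hcp, hw1] at hwa
          norm_num at hwa
        have n2 : s.im ≠ b := by
          intro e
          rw [← e, hcp, hw1] at hwb
          norm_num at hwb
        have n3 : a < s.im := lt_of_le_of_ne hs3 (Ne.symm n1)
        have n4 : s.im < b := lt_of_le_of_ne hs4 n2
        refine ⟨⟨by linarith, by rw [hcp]; exact hw1⟩, n3, n4⟩
      · exfalso
        have := l6 s h hs2 (by linarith)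
        rw [hn] at this
        exact lt_irrefl _ this
    · intro hz
      rw [hZ, Finset.mem_image] at hz
      obtain ⟨t, ht, rfl⟩ := hz
      rw [((hmemS t).1 ht).1.2, sub_self]
  have hder : ∀ t ∈ S, deriv (fun s => 1 - ww c N s) (cp t) = (N : ℂ) * (lam t : ℂ) ∧ 1 ≤ lam t := by
    intro t ht
    obtain ⟨⟨t1, t2⟩, t3, t4⟩ := (hmemS t).1 ht
    obtain ⟨e1, _, e3⟩ := l1 t (by linarith)
    have hd := l7 c N (cp t) (by rw [cp_re]; norm_num) (by rw [cp_im]; linarith)
    rw [t2, e1, mul_one] at hd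
    have hd2 : HasDerivAt (fun s => 1 - ww c N s) (0 - -((N : ℂ) * (lam t : ℂ))) (cp t) :=
      (hasDerivAt_const (cp t) (1 : ℂ)).sub hd
    refine ⟨?_, e3⟩
    rw [hd2.deriv]
    ring
  have hN0 : (N : ℂ) ≠ 0 := by
    have : N ≠ 0 := by omega
    exact_mod_cast this
  have hres := SG.rect_res (fun s => 1 - ww c N s) (fun s => FF k s * GG T Δ s) (-3) 4 a b
    (by norm_num) hab Z
    (by
      intro z hz
      rw [hZ, Finset.mem_image] at hz
      obtain ⟨t, ht, rfl⟩ := hz
      obtain ⟨_, t3, t4⟩ := (hmemS t).1 ht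
      rw [mem_reProdIm, cp_re, cp_im]
      exact ⟨⟨by norm_num, by norm_num⟩, t3, t4⟩)
    (fun s hs => hfd.analyticAt (hUo.mem_nhds (hR hs)))
    (fun s hs => hHd.analyticAt (hUo.mem_nhds (hR hs)))
    h0
    (by
      intro z hz
      rw [hZ, Finset.mem_image] at hz
      obtain ⟨t, ht, rfl⟩ := hz
      obtain ⟨d1, d2⟩ := hder t ht
      rw [d1]
      apply mul_ne_zero hN0
      have : lam t ≠ 0 := by linarith
      exact_mod_cast this)
  have hlhs : RI (RR c k N T Δ) (-3) 4 a b =
      SG.rectI (fun s => (FF k s * GG T Δ s) / (1 - ww c N s)) (-3) 4 a b := rfl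
  rw [hlhs, hres, hZ, Finset.sum_image (fun x _ y _ h => cp_inj h),
    finsum_mem_eq_finite_toFinset_sum _ hfin, ← hS, ofReal_sum, Finset.mul_sum, Finset.mul_sum]
  refine Finset.sum_congr rfl fun t ht => ?_
  obtain ⟨d1, d2⟩ := hder t ht
  have t1 := ((hmemS t).1 ht).1.1
  have hl0 : (lam t : ℂ) ≠ 0 := by
    have : lam t ≠ 0 := by linarith
    exact_mod_cast this
  rw [d1, l4 t (by linarith) k, l5]
  unfold rho
  push_cast
  field_simp

end Pool.Agent.W290.QS
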